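import Pool.Agent.Y364.KQ.Main

/-!
# Splitting `κ`-large subsets of a group into `κ` sets that are `κ`-large, all infinite `κ ≤ #G`

Stronger form of the answer: every infinite group `G` has a partition into `#G` subsets that are
left and right `#G`-large. Here `κ` is any infinite cardinal `≤ #G`, the group is replaced by any
of its `κ`-large subsets, and the two regular representations by many semiregular groups of
permutations of a set at the same time.

* `κ` countable: one application of Hall's theorem, the weights `2 ^ (-n)` making room for all the
  pieces and all the groups.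
* `κ = λ⁺`: every orbit of the group generated by the given groups is exhausted by a chain of sets
  of size `λ` indexed by a closed unbounded subset of `κ` which depends on the orbit, and the
  choice is made greedily between consecutive members of the chain; the levels of the pieces are
  chosen off the limit points of all these closed unbounded sets.
* `κ` an uncountable limit cardinal: choice in the tree of the orbits of a chain of groups of
  size `ν`, `ν < κ`, starting where `A` meets all orbits.
-/

open Cardinal Set Pointwise

namespace Pool.Agent.Results.MP_68822d_al.AllCardinals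

universe u

/-- `A` is left `κ`-large: `G = F A` for some set `F` of cardinality less than `κ`. -/
def LeftLarge {G : Type u} [Group G] (κ : Cardinal.{u}) (A : Set G) : Prop :=
  ∃ F : Set G, #F < κ ∧ F * A = Set.univ

/-- `A` is right `κ`-large: `G = A F` for some set `F` of cardinality less than `κ`. -/
def RightLarge {G : Type u} [Group G] (κ : Cardinal.{u}) (A : Set G) : Prop :=
  ∃ F : Set G, #F < κ ∧ A * F = Set.univ

/-- `A` is `κ`-large: it is both left and right `κ`-large. -/
def IsLarge {G : Type u} [Group G] (κ : Cardinal.{u}) (A : Set G) : Prop :=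
  LeftLarge κ A ∧ RightLarge κ A

/-- No element of `T` other than the identity has a fixed point. -/
def Semiregular {X : Type u} (T : Subgroup (Equiv.Perm X)) : Prop :=
  ∀ g ∈ T, ∀ x : X, g x = x → g = 1

/-- `B` is `κ`-large for the permutation group `T`: for some subset `F` of `T` of cardinality less
than `κ`, every point is moved into `B` by an element of `F`. -/
def LargeFor {X : Type u} (κ : Cardinal.{u}) (T : Subgroup (Equiv.Perm X)) (B : Set X) : Prop :=
  ∃ F : Set (Equiv.Perm X), #F < κ ∧ F ⊆ T ∧ ∀ x, ∃ g ∈ F, g x ∈ B

/-- `A` is the union of `κ` nonempty pairwise disjoint sets with the property `Q`. -/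
def Splits {X : Type u} (κ : Cardinal.{u}) (A : Set X) (Q : Set X → Prop) : Prop :=
  ∃ c : Set (Set X), c.PairwiseDisjoint id ∧ ⋃₀ c = A ∧ #c = κ ∧ ∀ s ∈ c, s.Nonempty ∧ Q s

/-- If `κ` is an uncountable limit cardinal, then the number of the groups and the cardinalities of
the sets which witness that `A` is large have a common bound below `κ`. -/
def BoundedBelow {X J : Type u} (κ : Cardinal.{u}) (S : J → Subgroup (Equiv.Perm X))
    (A : Set X) : Prop :=
  ℵ₀ < κ → (∀ μ < κ, Order.succ μ < κ) →
    ∃ ν < κ, #J ≤ ν ∧ ∀ j, LargeFor (Order.succ ν) (S j) A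

/-- (1) In every group `G`, for every infinite cardinal `κ ≤ #G`, every `κ`-large subset is the
disjoint union of `κ` subsets that are `κ`-large (left and right); for `κ = #G` and the subset `G`
this is the question.

(2) Let `X` be a nonempty set, `κ` an infinite cardinal and `S j` (`j ∈ J`), `J` nonempty,
semiregular groups of permutations of `X` of cardinality at least `κ`; their number is less than
`κ`, or it is `κ` and `κ` is `ℵ₀` or `#X`. Let `A` be a subset of `X` that is `κ`-large for each
of them; if `κ` is an uncountable limit cardinal suppose in addition that the number of groups and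
the cardinalities of the sets witnessing that `A` is large have a common bound below `κ`. Then `A`
is the disjoint union of `κ` sets each of which is `κ`-large for all the groups `S j`. -/
theorem result :
    (∀ (G : Type u) [Group G] (κ : Cardinal.{u}), ℵ₀ ≤ κ → κ ≤ #G → ∀ A : Set G,
      IsLarge κ A → Splits κ A (IsLarge κ)) ∧
    (∀ (X J : Type u) [Nonempty X] [Nonempty J] (S : J → Subgroup (Equiv.Perm X))
      (κ : Cardinal.{u}) (A : Set X), ℵ₀ ≤ κ → (#J < κ ∨ (#J = κ ∧ (κ = ℵ₀ ∨ κ = #X))) →
      (∀ j, Semiregular (S j) ∧ κ ≤ #(S j) ∧ LargeFor κ (S j) A) → BoundedBelow κ S A →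
      Splits κ A (fun B => ∀ j, LargeFor κ (S j) B)) := by
  refine ⟨fun G _ κ hκ hG A hA => Pool.Agent.Y364.KQ.group_case' hκ hG A hA, ?_⟩
  intro X J _ _ S κ A hκ hJ h hL
  rcases hJ with hJ | ⟨hJ, h0 | hX⟩
  · exact Pool.Agent.Y364.KQ.main' hκ (fun j => (h j).1) (fun j => (h j).2.1) A
      (fun j => (h j).2.2) (Or.inl hJ) hL
  · exact Pool.Agent.Y364.KQ.main' hκ (fun j => (h j).1) (fun j => (h j).2.1) A
      (fun j => (h j).2.2) (Or.inr ⟨h0, hJ.trans h0⟩) hL
  · subst hX
    have : Infinite X := Cardinal.infinite_iff.mpr hκ
    have hc : ∀ j, #(S j) = #X := by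
      intro j
      apply le_antisymm _ (h j).2.1
      obtain ⟨x⟩ := (inferInstance : Nonempty X)
      have e1 := Pool.Agent.Y364.KP.mk_Orb_eq (le_refl (S j)) (h j).1 x
      rw [← e1]
      exact Cardinal.mk_set_le _
    exact Pool.Agent.Y364.KP.main hJ.le (fun j => (h j).1) hc A (fun j => (h j).2.2) hL

end Pool.Agent.Results.MP_68822d_al.AllCardinals
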